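import Pool.Agent.Helper98.SPR.Defs

/-!
# Row statements for the sparse-root recurrence theorem (blueprint h98_spr_blueprint.md)
-/

namespace SPR

noncomputable section

open Filter Topology MeasureTheory

/-! ## More definitions -/

/-- energy of `U` (every edge is counted twice) -/
def Energy {V : Type} (c : V → V → ℕ) (U : V → ℝ) : ℝ :=
  ∑ᶠ x, ∑ᶠ y, (c x y : ℝ) * (U x - U y) ^ 2

/-- a good test function around `w`: support in the `R`-ball, energy at most `A`, gradient `O(1/k)` -/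
def Good (A : ℝ) (k R : ℕ) {V : Type} (c : V → V → ℕ) (w : V) : Prop :=
  ∃ U : V → ℝ, (∀ v, 0 ≤ U v ∧ U v ≤ 1) ∧ U w = 1 ∧ (∀ v, U v ≠ 0 → Near c R w v) ∧
    Energy c U ≤ A ∧ ∀ x y, c x y ≠ 0 → |U x - U y| ≤ A * (1 + deg c x + deg c y) / k

/-- symmetric and locally finite -/
def Nice {V : Type} (c : V → V → ℕ) : Prop :=
  (∀ x y, c x y = c y x) ∧ ∀ x, (Function.support (c x)).Finite

/-- far distance of disc `d` from the point `z` -/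
def fd {N : ℕ} (x : Fin N → ℂ) (ρ : Fin N → ℝ) (z : ℂ) (d : Fin N) : ℝ := dist (x d) z + ρ d

/-- square cell of side `3 ^ i`, shifted by half a side if `a = 1` resp. `b = 1` -/
def gr (a b : ℕ) (i : ℤ) (z : ℂ) : ℤ × ℤ :=
  (⌊z.re / (3 : ℝ) ^ i - (a : ℝ) / 2⌋, ⌊z.im / (3 : ℝ) ^ i - (b : ℝ) / 2⌋)

namespace DiscModel

variable {K : ℝ} {V : Type} {c : V → V → ℕ}

/-- touching relation of the model -/
def TAdj (M : DiscModel K c) (d d' : Fin M.N) : Prop :=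
  (M.depth d ≠ 0 ∧ M.par d = d') ∨ (M.depth d' ≠ 0 ∧ M.par d' = d) ∨ M.e d d' ≠ 0

/-- touching graph -/
def TG (M : DiscModel K c) : SimpleGraph (Fin M.N) := SimpleGraph.fromRel M.TAdj

/-- region `F_k` for the centre disc `o` and the point `p` -/
def Reg (M : DiscModel K c) (k : ℕ) (o : Fin M.N) (p : ℂ) (d : Fin M.N) : Prop :=
  fd M.ctr M.rad (M.ctr o) d ≤ 2 ^ k * M.rad o ∧ M.rad o < 2 ^ k * fd M.ctr M.rad p d

/-- `E_k`: the component of `o` in the region -/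
def InE (M : DiscModel K c) (k : ℕ) (o : Fin M.N) (p : ℂ) (d : Fin M.N) : Prop :=
  ∃ w : M.TG.Walk o d, ∀ a ∈ w.support, M.Reg k o p a

end DiscModel

/-! ## Rows -/

/-- disjoint discs in a disc -/
def ST_AREA : Prop :=
  ∀ (N : ℕ) (x : Fin N → ℂ) (ρ : Fin N → ℝ) (T : Finset (Fin N)) (z : ℂ) (R : ℝ),
    (∀ d, 0 < ρ d) → (∀ d d', d ≠ d' → ρ d + ρ d' ≤ dist (x d) (x d')) →
    (∀ d ∈ T, fd x ρ z d ≤ R) → 0 ≤ R → ∑ d ∈ T, ρ d ^ 2 ≤ R ^ 2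

/-- disjoint discs meeting a disc -/
def ST_AREA2 : Prop :=
  ∀ (N : ℕ) (x : Fin N → ℂ) (ρ : Fin N → ℝ) (T : Finset (Fin N)) (z : ℂ) (R : ℝ),
    (∀ d, 0 < ρ d) → (∀ d d', d ≠ d' → ρ d + ρ d' ≤ dist (x d) (x d')) → 0 < R →
    (∀ d ∈ T, dist (x d) z - ρ d ≤ R) → ∑ d ∈ T, (min (ρ d) R) ^ 2 ≤ 9 * R ^ 2

open Classical in
/-- supported cells in a nested sequence of partitions -/
def ST_POT : Prop :=
  ∀ (Z : Type) [Fintype Z] (m : Z → ℝ) (cell : ℕ → Z → ℤ × ℤ) (s : ℝ) (P : Finset (ℕ × (ℤ × ℤ))),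
    0 < s → (∀ z, 0 ≤ m z) →
    (∀ i z z', cell i z = cell i z' → cell (i + 1) z = cell (i + 1) z') →
    (∀ q ∈ P, ∀ B, s ≤ ∑ z with (cell (q.1 + 1) z = q.2 ∧ cell q.1 z ≠ B), m z) →
    s * P.card ≤ 2 * ∑ z, m z

/-- the shifted triadic grids -/
def ST_GRID : Prop :=
  (∀ (a b : ℕ) (i : ℤ) (z z' : ℂ), gr a b i z = gr a b i z' → gr a b (i + 1) z = gr a b (i + 1) z') ∧
  (∀ (i : ℤ) (x : ℂ) (R : ℝ), 0 ≤ R → 4 * R < (3 : ℝ) ^ i →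
    ∃ a ≤ 1, ∃ b ≤ 1, ∀ z : ℂ, dist z x ≤ R → gr a b i z = gr a b i x) ∧
  (∀ (a b : ℕ) (i : ℤ) (z z' : ℂ), gr a b i z = gr a b i z' → dist z z' ≤ 2 * (3 : ℝ) ^ i)

open Classical in
/-- the magic lemma with two measures -/
def ST_MAG : Prop :=
  ∃ C0 : ℝ, 0 < C0 ∧ ∀ (N : ℕ) (x : Fin N → ℂ) (ρ : Fin N → ℝ) (S : Finset (Fin N))
    (μ : Fin N → ℝ) (A s : ℝ),
    (∀ d, 0 < ρ d) → (∀ d d', d ≠ d' → ρ d + ρ d' ≤ dist (x d) (x d')) → (∀ d, 0 ≤ μ d) →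
    1 ≤ A → 0 < s →
    s * ((S.filter (fun w => ∀ p : ℂ,
      s < ∑ d with (fd x ρ (x w) d ≤ A * ρ w ∧ ρ w < A * fd x ρ p d), μ d)).card : ℝ) ≤
      C0 * A ^ 4 * ∑ d, μ d

open Classical in
/-- logarithmic area of an annulus -/
def ST_RSUM : Prop :=
  ∀ (N : ℕ) (x : Fin N → ℂ) (ρ : Fin N → ℝ) (z : ℂ) (r : ℝ) (n : ℕ),
    (∀ d, 0 < ρ d) → (∀ d d', d ≠ d' → ρ d + ρ d' ≤ dist (x d) (x d')) → 0 < r →
    ∑ d with (r ≤ fd x ρ z d ∧ fd x ρ z d < 2 ^ n * r), (ρ d / fd x ρ z d) ^ 2 ≤ 4 * n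

/-- facts about touching discs -/
def ST_EDGE : Prop :=
  ∀ (K : ℝ) (V : Type) (c : V → V → ℕ) (M : DiscModel K c), 1 ≤ K →
    ∀ a b, M.TG.Adj a b →
      M.rad a ≤ K * M.rad b ∧ (M.own a = M.own b ∨ c (M.own a) (M.own b) ≠ 0 ∨
        c (M.own b) (M.own a) ≠ 0) ∧
      ∀ z : ℂ, fd M.ctr M.rad z b ≤ fd M.ctr M.rad z a + 2 * M.rad b ∧
        |Real.log (fd M.ctr M.rad z b) - Real.log (fd M.ctr M.rad z a)| ≤
          6 * K * (M.rad a / fd M.ctr M.rad z a)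

/-- crossing bound: disjoint paths from `F_k` to the outside of `F_{k+1}` with at most `L` discs -/
def ST_CROSS : Prop :=
  ∀ (K : ℝ) (V : Type) (c : V → V → ℕ) (M : DiscModel K c) (o : Fin M.N) (p : ℂ) (k : ℕ)
    (ι : Type) [Fintype ι] (y y' z : ι → Fin M.N) (W : ∀ l, M.TG.Walk (y l) (y' l)) (L : ℝ),
    1 ≤ K → 0 ≤ L → (∀ l, M.Reg k o p (y l)) →
    (∀ l, ∀ a ∈ (W l).support, M.Reg (k + 1) o p a) →
    (∀ l, M.TG.Adj (y' l) (z l)) → (∀ l, ¬ M.Reg (k + 1) o p (z l)) →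
    (∀ l l', l ≠ l' → Disjoint (W l).support.toFinset (W l').support.toFinset) →
    (∀ l, ((W l).support.toFinset.card : ℝ) ≤ L) →
    (Fintype.card ι : ℝ) ≤ 200 * (1 + K) ^ 2 * L

/-- lifting of a path of the multigraph to the touching graph -/
def ST_LIFT : Prop :=
  ∀ (K : ℝ) (V : Type) (c : V → V → ℕ) (M : DiscModel K c) (r : ℕ) (u v : V) (y : Fin M.N),
    1 ≤ K → M.own y = u → Near c r u v →
    ∃ W : M.TG.Walk y (M.root v), (∀ a ∈ W.support, Near c r u (M.own a)) ∧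
      ∃ Q : Finset V, Q.card ≤ r + 1 ∧ ∀ a ∈ W.support, M.own a ∈ Q

open Classical in
/-- the new step: heights in `E_k` are below `t ^ q` -/
def ST_HT : Prop :=
  ∀ (K a : ℝ) (b q j m : ℕ), 1 ≤ K → 0 < a → 2 * j < q → m + j < q →
    ∃ t0 : ℝ, ∀ (s : ℝ) (t : ℕ), 1 ≤ s → t0 * s ^ 2 ≤ t →
      ∀ (V : Type) [Fintype V] (c : V → V → ℕ) (M : DiscModel K c) (S Net : Finset V) (w : V)
        (p : ℂ) (k : ℕ),
        (∀ x y, c x y = c y x) → w ∈ S →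
        (∀ v, NearSet c (t ^ q) S v → ∃ z ∈ Net, Near c (t ^ j) v z) →
        (((Net.filter (fun z => M.InE (k + 1) (M.root w) p (M.root z))).card : ℝ) ≤ s * t ^ m) →
        (∀ d, M.InE (k + 1) (M.root w) p d → NearSet c (2 * t ^ q) S (M.own d) →
          Real.exp (a * deg c (M.own d)) ≤ s * (2 * t ^ q) ^ b) →
        ∀ d, M.InE k (M.root w) p d → NearSet c (t ^ q) S (M.own d)

open Classical in
/-- comparison of energies (balanced trees) -/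
def ST_EN1 : Prop :=
  ∀ K : ℝ, 1 ≤ K → ∃ C3 : ℝ, 0 < C3 ∧ ∀ (V : Type) [Fintype V] (c : V → V → ℕ) (M : DiscModel K c)
    (u : Fin M.N → ℝ), (∀ x y, c x y = c y x) →
    Energy c (fun v => u (M.root v)) ≤
      C3 * ((∑ d, ∑ d', (M.e d d' : ℝ) * (u d - u d') ^ 2) +
        ∑ d, (deg c (M.own d) : ℝ) * (u d - u (M.par d)) ^ 2)

/-- the test function of the annulus -/
def ST_EN : Prop :=
  ∀ K : ℝ, 1 ≤ K → ∃ C5 : ℝ, 0 < C5 ∧ ∀ (V : Type) [Fintype V] (c : V → V → ℕ) (M : DiscModel K c)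
    (w : V) (p : ℂ) (k : ℕ) (Δ : ℝ), (∀ x y, c x y = c y x) → 1 ≤ k → 1 ≤ Δ →
    (∀ d, M.InE k (M.root w) p d → (deg c (M.own d) : ℝ) ≤ Δ) →
    ∃ U : V → ℝ, (∀ v, 0 ≤ U v ∧ U v ≤ 1) ∧ U w = 1 ∧
      (∀ v, U v ≠ 0 → M.InE k (M.root w) p (M.root v)) ∧
      Energy c U ≤ C5 * Δ / k ∧
      ∀ x y, c x y ≠ 0 → |U x - U y| ≤ C5 * (1 + deg c x + deg c y) / k

open Classical in
/-- finite theorem -/
def ST_FIN : Prop :=
  ∀ (K Cst a : ℝ) (b q j m : ℕ), 1 ≤ K → 0 < Cst → 0 < a → 2 * j < q → m + j < q →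
    ∃ A : ℝ, 0 < A ∧ ∀ ε : ℝ, 0 < ε → ∃ k0 : ℕ, ∀ k ≥ k0, ∃ h t R : ℕ, 1 ≤ h ∧ 1 ≤ t ∧
      ∀ (V : Type) [Fintype V] (c : V → V → ℕ) (S : Finset V),
        (∀ x y, c x y = c y x) → Nonempty (DiscModel K c) → S.Nonempty →
        (∑ v with NearSet c h S v, Real.exp (a * deg c v) ≤ Cst * h ^ b * S.card) →
        (∃ Net : Finset V, (Net.card : ℝ) ≤ Cst * t ^ m * S.card ∧
          ∀ v, NearSet c (t ^ q) S v → ∃ z ∈ Net, Near c (t ^ j) v z) →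
        ((S.filter (fun w => ¬ Good A k R c w)).card : ℝ) ≤ ε * S.card

/-- goodness is a property of the ball -/
def ST_ISO : Prop :=
  ∀ (A : ℝ) (k R : ℕ) (V W : Type) (c : V → V → ℕ) (c' : W → W → ℕ) (x : V) (x' : W),
    Nice c → Nice c' → BallIso (R + 2) c x c' x' → Good A k R c x → Good A k R c' x'

open Classical in
/-- passage to the local limit -/
def ST_LIM : Prop :=
  ∀ (A ε : ℝ) (k R : ℕ) (V : ℕ → Type) (c : ∀ n, V n → V n → ℕ) (S : ∀ n, Finset (V n))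
    (Ω : Type) [MeasurableSpace Ω] (P : Measure Ω) [IsProbabilityMeasure P] (G : Ω → ℕ → ℕ → ℕ),
    0 ≤ ε → (∀ n, Nice (c n)) → (∀ ω, Nice (G ω)) → (∀ n, (S n).Nonempty) → LocalLimit c S P G →
    (∀ᶠ n in atTop, (((S n).filter (fun w => ¬ Good A k R (c n) w)).card : ℝ) ≤ ε * (S n).card) →
    (P {ω | ¬ Good A k R (G ω) 0}).toReal ≤ ε

/-- small energies imply recurrence -/
def ST_REC1 : Prop :=
  ∀ (V : Type) (c : V → V → ℕ) (o : V), Nice c → deg c o ≠ 0 →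
    (∀ δ > 0, ∃ U : V → ℝ, (Function.support U).Finite ∧ U o = 1 ∧ Energy c U ≤ δ) → Recurrent c o

/-- good test functions at infinitely many scales imply recurrence -/
def ST_REC2 : Prop :=
  ∀ (A : ℝ) (V : Type) (c : V → V → ℕ) (o : V), Nice c → deg c o ≠ 0 →
    (∀ k0 : ℕ, ∃ k ≥ k0, ∃ R, Good A k R c o) → Recurrent c o

open Classical in
/-- main theorem -/
def ST_MAIN : Prop :=
  ∀ (K Cst a : ℝ) (b q j m : ℕ), 1 ≤ K → 0 < Cst → 0 < a → 2 * j < q → m + j < q →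
    ∀ (V : ℕ → Type) [∀ n, Fintype (V n)] (c : ∀ n, V n → V n → ℕ) (S : ∀ n, Finset (V n)),
      (∀ n x y, c n x y = c n y x) → (∀ n, Nonempty (DiscModel K (c n))) → (∀ n, (S n).Nonempty) →
      (∀ n, ∀ w ∈ S n, ∃ y, c n w y ≠ 0) →
      (∀ h : ℕ, 1 ≤ h → ∀ᶠ n in atTop,
        ∑ v with NearSet (c n) h (S n) v, Real.exp (a * deg (c n) v) ≤ Cst * h ^ b * (S n).card) →
      (∀ t : ℕ, 1 ≤ t → ∀ᶠ n in atTop, ∃ Net : Finset (V n), (Net.card : ℝ) ≤ Cst * t ^ m * (S n).card ∧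
        ∀ v, NearSet (c n) (t ^ q) (S n) v → ∃ z ∈ Net, Near (c n) (t ^ j) v z) →
      ∀ (Ω : Type) [MeasurableSpace Ω] (P : Measure Ω) [IsProbabilityMeasure P]
        (G : Ω → ℕ → ℕ → ℕ), (∀ ω x y, G ω x y = G ω y x) →
        (∀ ω x, (Function.support (G ω x)).Finite) → LocalLimit c S P G →
        ∀ᵐ ω ∂P, Recurrent (G ω) 0

end

end SPR
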