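import Mathlib

/-!
# Local limits of planar multigraphs rooted on a sparse set: definitions

A multigraph on `V` is given by the number `c x y` of edges between `x` and `y`.
-/

namespace SPR

noncomputable section

open Filter Topology MeasureTheory

/-- There is a path with at most `r` edges from `x` to `y`. -/
def Near {V : Type} (c : V → V → ℕ) : ℕ → V → V → Prop
  | 0, x, y => x = y
  | r + 1, x, y => Near c r x y ∨ ∃ z, Near c r x z ∧ c z y ≠ 0

/-- The vertex `v` is at distance at most `r` from the set `S`. -/
def NearSet {V : Type} (c : V → V → ℕ) (r : ℕ) (S : Finset V) (v : V) : Prop :=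
  ∃ s ∈ S, Near c r s v

/-- The degree of a vertex (number of edges at `x`). -/
def deg {V : Type} (c : V → V → ℕ) (x : V) : ℕ := ∑ᶠ y, c x y

/-- One step of simple random walk: the expected value of `f` after one step from `x`. -/
def avg {V : Type} (c : V → V → ℕ) (f : V → ℝ) (x : V) : ℝ :=
  (∑ᶠ y, (c x y : ℝ) * f y) / (deg c x : ℝ)

open Classical in
/-- `hit c o n x` is the probability that simple random walk started at `x` visits `o`
at one of the times `0, ..., n`. -/
def hit {V : Type} (c : V → V → ℕ) (o : V) : ℕ → V → ℝ
  | 0, x => if x = o then 1 else 0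
  | n + 1, x => if x = o then 1 else avg c (hit c o n) x

/-- Simple random walk started at `o` returns to `o` almost surely: the probability
`avg c (hit c o n) o` of a return within `n + 1` steps tends to `1`. -/
def Recurrent {V : Type} (c : V → V → ℕ) (o : V) : Prop :=
  Tendsto (fun n => avg c (hit c o n) o) atTop (𝓝 1)

/-- The balls of radius `r` around `x` and `x'` are isomorphic as rooted multigraphs. -/
def BallIso {V W : Type} (r : ℕ) (c : V → V → ℕ) (x : V) (c' : W → W → ℕ) (x' : W) : Prop :=
  ∃ e : {v // Near c r x v} ≃ {v // Near c' r x' v},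
    (∀ h, ((e ⟨x, h⟩ : {v // Near c' r x' v}) : W) = x') ∧
      ∀ u v : {v // Near c r x v}, c (u : V) (v : V) = c' (e u : W) (e v : W)

open Classical in
/-- The random rooted multigraph `(G ω, 0)` is the local (Benjamini-Schramm) limit of `(V n, c n)`
rooted at a uniform random vertex of `S n`: for every radius `r` and every finite rooted multigraph
`(F, o)` the frequency of the roots in `S n` whose `r`-ball is isomorphic to that of `(F, o)`
converges to the probability that the `r`-ball of the limit is. -/
def LocalLimit {V : ℕ → Type} (c : ∀ n, V n → V n → ℕ) (S : ∀ n, Finset (V n))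
    {Ω : Type} [MeasurableSpace Ω] (P : Measure Ω) (G : Ω → ℕ → ℕ → ℕ) : Prop :=
  ∀ (r N : ℕ) (F : Fin N → Fin N → ℕ) (o : Fin N),
    Tendsto (fun n => (((S n).filter (fun w => BallIso r (c n) w F o)).card : ℝ) / ((S n).card : ℝ))
      atTop (𝓝 (P {ω | BallIso r (G ω) 0 F o}).toReal)

open Classical in
/-- A disc model with constant `K` of the finite multigraph `c`: finitely many closed discs
(centre `ctr d`, radius `rad d`) with disjoint interiors.  Each disc belongs to a vertex `own d`; the
discs of a vertex `v` form a rooted tree (root `root v`, parent map `par`, depth `depth`) in which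
every disc touches its parent; the edges of the multigraph are realised by touching pairs of discs
(`e d d'` of them by the pair `d, d'`).  Touching discs in these two senses have radii within the
factor `K`.  The tree of a vertex `v` has at most `K (1 + deg v)` discs and is balanced: below a
disc of depth `i` hang at most `K 2^{-i} deg v` edge ends. -/
structure DiscModel (K : ℝ) {V : Type} (c : V → V → ℕ) where
  N : ℕ
  ctr : Fin N → ℂ
  rad : Fin N → ℝ
  own : Fin N → V
  root : V → Fin N
  par : Fin N → Fin N
  depth : Fin N → ℕ
  e : Fin N → Fin N → ℕ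
  rad_pos : ∀ d, 0 < rad d
  disj : ∀ d d', d ≠ d' → rad d + rad d' ≤ dist (ctr d) (ctr d')
  own_root : ∀ v, own (root v) = v
  par_root : ∀ v, par (root v) = root v
  depth_eq_zero : ∀ d, depth d = 0 ↔ d = root (own d)
  own_par : ∀ d, own (par d) = own d
  depth_par : ∀ d, depth d ≠ 0 → depth (par d) + 1 = depth d
  par_touch : ∀ d, depth d ≠ 0 → dist (ctr d) (ctr (par d)) = rad d + rad (par d) ∧
    rad d ≤ K * rad (par d) ∧ rad (par d) ≤ K * rad d
  e_symm : ∀ d d', e d d' = e d' d
  e_touch : ∀ d d', e d d' ≠ 0 → dist (ctr d) (ctr d') = rad d + rad d' ∧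
    rad d ≤ K * rad d' ∧ rad d' ≤ K * rad d
  e_sum : ∀ u v, (∑ d with own d = u, ∑ d' with own d' = v, e d d') = c u v
  size : ∀ v, ((Finset.univ.filter (fun d => own d = v)).card : ℝ) ≤ K * (1 + deg c v)
  balance : ∀ d, ((∑ d' with (∃ i, par^[i] d' = d), ∑ d'', e d' d'' : ℕ) : ℝ) * 2 ^ depth d ≤
    K * deg c (own d)

end

end SPR
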