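import Pool.Agent.Helper98.SPR.StmtsB

namespace SPR

noncomputable section

open Filter Topology

section near98

variable {V : Type} {c : V → V → ℕ}

theorem near98_refl (x : V) : ∀ r, Near c r x x
  | 0 => rfl
  | r + 1 => Or.inl (near98_refl x r)

theorem near98_mono {x y : V} {r s : ℕ} (h : r ≤ s) (hx : Near c r x y) : Near c s x y := by
  induction h with
  | refl => exact hx
  | step _ ih => exact Or.inl ih

theorem near98_step {x y z : V} {r : ℕ} (h : Near c r x y) (hc : c y z ≠ 0) : Near c (r + 1) x z :=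
  Or.inr ⟨y, h, hc⟩

theorem nearSet98_mono {S : Finset V} {v : V} {r s : ℕ} (h : r ≤ s) (hx : NearSet c r S v) :
    NearSet c s S v := by
  obtain ⟨a, ha, hn⟩ := hx
  exact ⟨a, ha, near98_mono h hn⟩

theorem nearSet98_step {S : Finset V} {v z : V} {r : ℕ} (hx : NearSet c r S v) (hc : c v z ≠ 0) :
    NearSet c (r + 1) S z := by
  obtain ⟨a, ha, hn⟩ := hx
  exact ⟨a, ha, near98_step hn hc⟩

/-- height -/
def ht98 (c : V → V → ℕ) (S : Finset V) (v : V) : ℕ := sInf {n | NearSet c n S v}

theorem ht98_spec {S : Finset V} {v : V} (h : ∃ n, NearSet c n S v) : NearSet c (ht98 c S v) S v :=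
  Nat.sInf_mem (s := {n | NearSet c n S v}) h

theorem ht98_le {S : Finset V} {v : V} {n : ℕ} (h : NearSet c n S v) : ht98 c S v ≤ n :=
  Nat.sInf_le (s := {n | NearSet c n S v}) h

theorem ht98_step {S : Finset V} {x y : V} (h : ∃ n, NearSet c n S x) (hc : c x y ≠ 0) :
    (∃ n, NearSet c n S y) ∧ ht98 c S y ≤ ht98 c S x + 1 :=
  ⟨⟨_, nearSet98_step (ht98_spec h) hc⟩, ht98_le (nearSet98_step (ht98_spec h) hc)⟩

theorem nearSet98_of_ht {S : Finset V} {v : V} {n : ℕ} (h : ∃ n, NearSet c n S v)
    (hn : ht98 c S v ≤ n) : NearSet c n S v :=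
  nearSet98_mono hn (ht98_spec h)

/-- the simple graph of a multigraph -/
def sg98 (c : V → V → ℕ) (hc : ∀ x y, c x y = c y x) : SimpleGraph V where
  Adj x y := x ≠ y ∧ c x y ≠ 0
  symm := ⟨fun x y h => ⟨h.1.symm, by rw [hc]; exact h.2⟩⟩
  loopless := ⟨fun _ h => h.1 rfl⟩

theorem near98_of_walk (hc : ∀ x y, c x y = c y x) {x y : V} (p : (sg98 c hc).Walk x y) :
    Near c p.length x y := by
  induction p using SimpleGraph.Walk.concatRec with
  | Hnil => exact rfl
  | Hconcat p h ih =>
    rw [SimpleGraph.Walk.length_concat]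
    exact near98_step ih h.2

theorem near98_of_reach (hc : ∀ x y, c x y = c y x) (T : Finset V) {w : V} (hw : w ∈ T) {v : V}
    (h : Relation.ReflTransGen (fun a b => c a b ≠ 0 ∧ b ∈ T) w v) : Near c T.card w v := by
  classical
  have h1 : ∃ p : (sg98 c hc).Walk w v, ∀ a ∈ p.support, a ∈ T := by
    induction h with
    | refl => exact ⟨SimpleGraph.Walk.nil, by simpa using hw⟩
    | @tail b d _ hbd ih =>
      obtain ⟨p, hp⟩ := ih
      by_cases hb : b = d
      · subst hb
        exact ⟨p, hp⟩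
      · refine ⟨p.concat ⟨hb, hbd.1⟩, ?_⟩
        intro a ha
        rw [SimpleGraph.Walk.support_concat] at ha
        rcases List.mem_append.1 ha with ha | ha
        · exact hp a ha
        · rw [List.mem_singleton.1 ha]
          exact hbd.2
  obtain ⟨p, hp⟩ := h1
  have hq := p.bypass_isPath
  have hlen : (p.bypass).length ≤ T.card := by
    have h2 : (p.bypass).support.toFinset ⊆ T := by
      intro a ha
      exact hp a (p.support_bypass_subset_support (List.mem_toFinset.1 ha))
    have h3 := Finset.card_le_card h2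
    rw [List.toFinset_card_of_nodup hq.support_nodup, SimpleGraph.Walk.length_support] at h3
    omega
  exact near98_mono hlen (near98_of_walk hc _)

end near98

section main98

variable {V : Type}

/-- a walk in the touching graph stays connected to the set `S` -/
theorem ine98_reach {K : ℝ} {c : V → V → ℕ} (hc : ∀ x y, c x y = c y x)
    (hE : ST_EDGE) (hK : 1 ≤ K) (M : DiscModel K c) {S : Finset V} {w : V} (hw : w ∈ S) {k : ℕ} {p : ℂ}
    {d : Fin M.N} (h : M.InE k (M.root w) p d) : ∃ n, NearSet c n S (M.own d) := by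
  obtain ⟨W, -⟩ := h
  have ho : M.own (M.root w) = w := M.own_root w
  generalize M.root w = o at W ho
  induction W using SimpleGraph.Walk.concatRec with
  | Hnil => exact ⟨0, w, hw, by rw [ho]; exact rfl⟩
  | Hconcat p h ih =>
    obtain ⟨n, hn⟩ := ih ho
    rcases (hE K V c M hK _ _ h).2.1 with h1 | h1 | h1
    · exact ⟨n, by rw [← h1]; exact hn⟩
    · exact ⟨n + 1, nearSet98_step hn h1⟩
    · exact ⟨n + 1, nearSet98_step hn (by rw [hc]; exact h1)⟩

/-- the weights of the dyadic scales -/
def w98 (g : ℕ → ℝ) (l : ℕ) : ℝ := 4 ^ l / g (2 ^ (l + 1))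

/-- the total weight -/
def G98 (g : ℕ → ℝ) (J : ℕ) : ℝ := ∑ l ∈ Finset.range J, w98 g l

/-- the gradient of the cut-off between the heights `m` and `m + 1` -/
def inc98 (g : ℕ → ℝ) (m : ℕ) : ℝ := w98 g (Nat.log 2 (m + 1)) / 2 ^ (Nat.log 2 (m + 1))

/-- cut-off in the height -/
def psi98 (g : ℕ → ℝ) (J : ℕ) (n : ℕ) : ℝ :=
  max 0 (1 - (∑ m ∈ Finset.range n, inc98 g m) / G98 g J)

theorem w98_pos {g : ℕ → ℝ} (hg : ∀ h, 0 < g h) (l : ℕ) : 0 < w98 g l := by
  unfold w98
  exact div_pos (by positivity) (hg _)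

theorem inc98_nonneg {g : ℕ → ℝ} (hg : ∀ h, 0 < g h) (m : ℕ) : 0 ≤ inc98 g m := by
  unfold inc98
  exact div_nonneg (w98_pos hg _).le (by positivity)

theorem G98_nonneg {g : ℕ → ℝ} (hg : ∀ h, 0 < g h) (J : ℕ) : 0 ≤ G98 g J :=
  Finset.sum_nonneg (fun l _ => (w98_pos hg l).le)

theorem w98_le_G98 {g : ℕ → ℝ} (hg : ∀ h, 0 < g h) {J l : ℕ} (h : l < J) : w98 g l ≤ G98 g J :=
  Finset.single_le_sum (f := fun l => w98 g l) (fun l _ => (w98_pos hg l).le)
    (Finset.mem_range.2 h)

theorem G98_tendsto {g : ℕ → ℝ} (hg : ∀ h, 0 < g h)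
    (h : ¬ Summable (fun i : ℕ => (4 : ℝ) ^ i / g (2 ^ i))) : Tendsto (G98 g) atTop atTop := by
  have h1 : ¬ Summable (fun i : ℕ => w98 g i) := by
    intro h2
    apply h
    rw [← summable_nat_add_iff 1]
    have h3 : (fun i : ℕ => (4 : ℝ) ^ (i + 1) / g (2 ^ (i + 1))) = fun i => 4 * w98 g i := by
      funext i
      unfold w98
      rw [pow_succ]
      ring
    rw [h3]
    exact h2.mul_left 4
  have := (not_summable_iff_tendsto_nat_atTop_of_nonneg (fun i => (w98_pos hg i).le)).1 h1
  exact this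

theorem psi98_nonneg (g : ℕ → ℝ) (J n : ℕ) : 0 ≤ psi98 g J n := le_max_left _ _

theorem inc98_sum (g : ℕ → ℝ) (J : ℕ) :
    ∑ m ∈ Finset.range (2 ^ J - 1), inc98 g m = G98 g J := by
  induction J with
  | zero => simp [G98]
  | succ J ih =>
    have h1 : (2 : ℕ) ^ J - 1 + 2 ^ J = 2 ^ (J + 1) - 1 := by
      have := Nat.one_le_two_pow (n := J)
      rw [pow_succ]
      omega
    rw [← h1, Finset.sum_range_add, ih]
    unfold G98
    rw [Finset.sum_range_succ]
    congr 1
    have h2 : ∀ m ∈ Finset.range (2 ^ J), inc98 g (2 ^ J - 1 + m) = w98 g J / 2 ^ J := by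
      intro m hm
      have hm' := Finset.mem_range.1 hm
      have h3 : Nat.log 2 (2 ^ J - 1 + m + 1) = J := by
        rw [Nat.log_eq_iff]
        · have := Nat.one_le_two_pow (n := J)
          rw [pow_succ]
          omega
        · right
          have := Nat.one_le_two_pow (n := J)
          omega
      unfold inc98
      rw [h3]
    rw [Finset.sum_congr rfl h2, Finset.sum_const, Finset.card_range, nsmul_eq_mul]
    push_cast
    field_simp

/-- for `n + 1 ≥ 2 ^ J` the cut-off vanishes -/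
theorem psi98_zero {g : ℕ → ℝ} (hg : ∀ h, 0 < g h) {J n : ℕ} (hG : 0 < G98 g J)
    (h : 2 ^ J ≤ n + 1) : psi98 g J n = 0 := by
  unfold psi98
  apply max_eq_left
  rw [sub_nonpos, one_le_div hG, ← inc98_sum]
  apply Finset.sum_le_sum_of_subset_of_nonneg
  · intro m hm
    rw [Finset.mem_range] at hm ⊢
    omega
  · intro m _ _
    exact inc98_nonneg hg m

theorem psi98_at_zero (g : ℕ → ℝ) (J : ℕ) : psi98 g J 0 = 1 := by
  unfold psi98
  simp

theorem psi98_succ {g : ℕ → ℝ} (hg : ∀ h, 0 < g h) (J : ℕ) (hG : 0 < G98 g J) (n : ℕ) :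
    |psi98 g J n - psi98 g J (n + 1)| ≤ inc98 g n / G98 g J := by
  unfold psi98
  rw [max_comm (0 : ℝ), max_comm (0 : ℝ)]
  refine (abs_max_sub_max_le_abs _ _ _).trans ?_
  rw [Finset.sum_range_succ]
  have h1 : (1 - (∑ m ∈ Finset.range n, inc98 g m) / G98 g J) -
      (1 - (∑ m ∈ Finset.range n, inc98 g m + inc98 g n) / G98 g J) = inc98 g n / G98 g J := by
    rw [add_div]
    ring
  rw [h1, abs_of_nonneg (div_nonneg (inc98_nonneg hg n) hG.le)]

theorem psi98_step {g : ℕ → ℝ} (hg : ∀ h, 0 < g h) (J : ℕ) (hG : 0 < G98 g J) (m n : ℕ)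
    (hm : m + 1 < 2 ^ J) (h1 : m ≤ n + 1) (h2 : n ≤ m + 1) :
    ∃ l < J, m ≤ 2 ^ (l + 1) ∧ |psi98 g J m - psi98 g J n| ≤ w98 g l / 2 ^ l / G98 g J := by
  have hlog : ∀ x : ℕ, x < 2 ^ J → x ≠ 0 → Nat.log 2 x < J := by
    intro x hx hx0
    exact Nat.log_lt_of_lt_pow hx0 hx
  rcases Nat.lt_trichotomy m n with h | h | h
  · have hn : n = m + 1 := by omega
    subst hn
    refine ⟨Nat.log 2 (m + 1), hlog _ hm (by omega), ?_, ?_⟩
    · have := Nat.lt_pow_succ_log_self (b := 2) (by norm_num) (m + 1)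
      omega
    · exact psi98_succ hg J hG m
  · subst h
    refine ⟨Nat.log 2 (m + 1), hlog _ hm (by omega), ?_, ?_⟩
    · have := Nat.lt_pow_succ_log_self (b := 2) (by norm_num) (m + 1)
      omega
    · rw [sub_self, abs_zero]
      exact div_nonneg (div_nonneg (w98_pos hg _).le (by positivity)) hG.le
  · have hn : m = n + 1 := by omega
    subst hn
    refine ⟨Nat.log 2 (n + 1), hlog _ (by omega) (by omega), ?_, ?_⟩
    · have := Nat.lt_pow_succ_log_self (b := 2) (by norm_num) (n + 1)
      omega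
    · rw [abs_sub_comm]
      exact psi98_succ hg J hG n

/-- the component cut -/
theorem min98_sq (a b a' b' : ℝ) : (min a b - min a' b') ^ 2 ≤ (a - a') ^ 2 + (b - b') ^ 2 := by
  have h := abs_min_sub_min_le_max a b a' b'
  rcases le_max_iff.1 h with h1 | h1
  · have := sq_le_sq' (by linarith [neg_abs_le (min a b - min a' b'), abs_nonneg (a - a')]) (le_of_abs_le h1)
    rw [sq_abs] at this
    nlinarith [sq_nonneg (b - b')]
  · have := sq_le_sq' (by linarith [neg_abs_le (min a b - min a' b'), abs_nonneg (b - b')]) (le_of_abs_le h1)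
    rw [sq_abs] at this
    nlinarith [sq_nonneg (a - a')]

open Classical in
/-- the measure: sum over the dyadic tubes -/
def mu98 (g : ℕ → ℝ) (c : V → V → ℕ) (S : Finset V) (J : ℕ) (v : V) : ℝ :=
  ∑ l ∈ Finset.range J, if NearSet c (2 ^ (l + 1)) S v then (w98 g l) ^ 2 / 4 ^ l else 0

theorem mu98_nonneg (g : ℕ → ℝ) (c : V → V → ℕ) (S : Finset V) (J : ℕ) (v : V) :
    0 ≤ mu98 g c S J v := by
  unfold mu98
  apply Finset.sum_nonneg
  intro i _
  split_ifs
  · positivity
  · exact le_refl _

theorem mu98_ge (g : ℕ → ℝ) (c : V → V → ℕ) (S : Finset V) (J : ℕ) (v : V)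
    (h : ∃ n, NearSet c n S v) (l : ℕ) (hl : l < J) (hJ : ht98 c S v ≤ 2 ^ (l + 1)) :
    (w98 g l) ^ 2 / 4 ^ l ≤ mu98 g c S J v := by
  classical
  have h4 : NearSet c (2 ^ (l + 1)) S v := nearSet98_of_ht h hJ
  unfold mu98
  have := Finset.single_le_sum
    (f := fun l => if NearSet c (2 ^ (l + 1)) S v then (w98 g l) ^ 2 / 4 ^ l else 0)
    (s := Finset.range J) (fun i _ => by
      split_ifs
      · positivity
      · exact le_refl _) (Finset.mem_range.2 hl)
  rwa [if_pos h4] at this

open Classical in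
/-- total mass of the measure -/
theorem mu98_total [Fintype V] {K : ℝ} {c : V → V → ℕ} (hK : 1 ≤ K) (M : DiscModel K c) (S : Finset V)
    (J Δ : ℕ) (g : ℕ → ℝ) (hg : ∀ h, 0 < g h) (hΔ : ∀ v, deg c v ≤ Δ)
    (h : ∀ h : ℕ, 1 ≤ h → h ≤ 2 ^ J →
      ((Finset.univ.filter (fun v => NearSet c h S v)).card : ℝ) ≤ g h * S.card) :
    ∑ d : Fin M.N, mu98 g c S J (M.own d) ≤ G98 g J * (K * (1 + Δ)) * S.card := by
  unfold mu98
  rw [Finset.sum_comm]
  have h1 : ∀ l ∈ Finset.range J,
      ∑ d : Fin M.N, (if NearSet c (2 ^ (l + 1)) S (M.own d) then (w98 g l) ^ 2 / 4 ^ l else 0) ≤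
        w98 g l * (K * (1 + Δ) * S.card) := by
    intro i hi
    have hi' : i + 1 ≤ J := Finset.mem_range.1 hi
    have h2 := h (2 ^ (i + 1)) Nat.one_le_two_pow (Nat.pow_le_pow_right (by norm_num) hi')
    rw [← Finset.sum_filter, Finset.sum_const, nsmul_eq_mul]
    have h3 : ((Finset.univ.filter (fun d : Fin M.N =>
        NearSet c (2 ^ (i + 1)) S (M.own d))).card : ℝ) ≤ K * (1 + Δ) *
          ((Finset.univ.filter (fun v => NearSet c (2 ^ (i + 1)) S v)).card : ℝ) := by
      have h4 : Finset.univ.filter (fun d : Fin M.N => NearSet c (2 ^ (i + 1)) S (M.own d)) ⊆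
          (Finset.univ.filter (fun v => NearSet c (2 ^ (i + 1)) S v)).biUnion
            (fun v => Finset.univ.filter (fun d => M.own d = v)) := by
        intro d hd
        rw [Finset.mem_biUnion]
        exact ⟨M.own d, by simpa using hd, by simp⟩
      calc ((Finset.univ.filter (fun d : Fin M.N => NearSet c (2 ^ (i + 1)) S (M.own d))).card : ℝ)
          ≤ (((Finset.univ.filter (fun v => NearSet c (2 ^ (i + 1)) S v)).biUnion
            (fun v => Finset.univ.filter (fun d => M.own d = v))).card : ℝ) := by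
            exact_mod_cast Finset.card_le_card h4
        _ ≤ ((∑ v ∈ Finset.univ.filter (fun v => NearSet c (2 ^ (i + 1)) S v),
            (Finset.univ.filter (fun d => M.own d = v)).card : ℕ) : ℝ) := by
            exact_mod_cast Finset.card_biUnion_le
        _ = ∑ v ∈ Finset.univ.filter (fun v => NearSet c (2 ^ (i + 1)) S v),
            ((Finset.univ.filter (fun d => M.own d = v)).card : ℝ) := by push_cast; rfl
        _ ≤ ∑ v ∈ Finset.univ.filter (fun v => NearSet c (2 ^ (i + 1)) S v), K * (1 + Δ) := by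
            apply Finset.sum_le_sum
            intro v _
            refine (M.size v).trans ?_
            apply mul_le_mul_of_nonneg_left _ (by linarith)
            have : (deg c v : ℝ) ≤ Δ := by exact_mod_cast hΔ v
            linarith
        _ = K * (1 + Δ) *
            ((Finset.univ.filter (fun v => NearSet c (2 ^ (i + 1)) S v)).card : ℝ) := by
            rw [Finset.sum_const, nsmul_eq_mul]
            ring
    have h5 : (0 : ℝ) ≤ K * (1 + Δ) := by positivity
    have hgi := hg (2 ^ (i + 1))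
    calc ((Finset.univ.filter (fun d : Fin M.N => NearSet c (2 ^ (i + 1)) S (M.own d))).card : ℝ) *
        ((w98 g i) ^ 2 / 4 ^ i)
        ≤ (K * (1 + Δ) * (g (2 ^ (i + 1)) * S.card)) * ((w98 g i) ^ 2 / 4 ^ i) := by
          apply mul_le_mul_of_nonneg_right _ (by positivity)
          exact h3.trans (mul_le_mul_of_nonneg_left h2 h5)
      _ = w98 g i * (K * (1 + Δ) * S.card) := by
          unfold w98
          field_simp
  refine (Finset.sum_le_sum h1).trans ?_
  rw [← Finset.sum_mul]
  unfold G98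
  exact le_of_eq (by ring)

open Classical in
/-- sum of the measure over vertices whose root disc lies in the region -/
theorem mu98_sum [Fintype V] {K : ℝ} {c : V → V → ℕ} (M : DiscModel K c) (S : Finset V) (J : ℕ)
    (g : ℕ → ℝ) (Q : Fin M.N → Prop) [DecidablePred Q] (s : ℝ)
    (hs : ∑ d with Q d, mu98 g c S J (M.own d) ≤ s)
    (T : Finset V) (hT : ∀ v ∈ T, Q (M.root v)) : ∑ v ∈ T, mu98 g c S J v ≤ s := by
  refine le_trans ?_ hs
  have h1 : ∑ v ∈ T, mu98 g c S J v = ∑ d ∈ T.image M.root, mu98 g c S J (M.own d) := by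
    rw [Finset.sum_image]
    · apply Finset.sum_congr rfl
      intro v _
      rw [M.own_root]
    · intro u _ v _ huv
      have := congrArg M.own huv
      rwa [M.own_root, M.own_root] at this
  rw [h1]
  apply Finset.sum_le_sum_of_subset_of_nonneg
  · intro d hd
    obtain ⟨v, hv, rfl⟩ := Finset.mem_image.1 hd
    simpa using hT v hv
  · intro d _ _
    exact mu98_nonneg _ _ _ _ _

open Classical in
/-- the finite theorem for bounded degrees -/
theorem st_FINB (hMAG : ST_MAG) (hE : ST_EDGE) (hEN : ST_EN) : ST_FINB := by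
  obtain ⟨C0, hC0, hMAG⟩ := hMAG
  intro K Δ g hK hg hgs
  have hGt := G98_tendsto hg hgs
  obtain ⟨C5, hC5, hEN⟩ := hEN K hK
  refine ⟨C5 * (Δ + 1) + C5 + 5, by positivity, fun ε hε => ⟨1, fun k hk => ?_⟩⟩
  have hk1 : (1 : ℝ) ≤ k := by exact_mod_cast hk
  obtain ⟨A1, hA1⟩ : ∃ A1 : ℝ, A1 = (2 : ℝ) ^ k := ⟨_, rfl⟩
  have hA11 : 1 ≤ A1 := hA1 ▸ one_le_pow₀ (by norm_num)
  obtain ⟨Sk, hSk⟩ : ∃ Sk : ℝ, Sk = C0 * A1 ^ 4 * (K * (1 + Δ)) / ε + 1 := ⟨_, rfl⟩
  have hSk1 : 1 ≤ Sk := by
    rw [hSk]
    have : 0 ≤ C0 * A1 ^ 4 * (K * (1 + Δ)) / ε := by positivity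
    linarith
  obtain ⟨J, hJ1, hJG⟩ : ∃ J : ℕ, 1 ≤ J ∧ 1 + 2 * Δ * Sk + k * G98 g k ≤ G98 g J := by
    have h1 := (hGt.eventually_ge_atTop (1 + 2 * Δ * Sk + k * G98 g k)).and
      (eventually_ge_atTop (1 : ℕ))
    obtain ⟨J, h2, h3⟩ := h1.exists
    exact ⟨J, h3, h2⟩
  have hGk0 := G98_nonneg hg k
  have hΔ0 : (0 : ℝ) ≤ Δ := Nat.cast_nonneg _
  obtain ⟨G, hG⟩ : ∃ G : ℝ, G = G98 g J := ⟨_, rfl⟩
  have hG1 : 1 ≤ G := by
    rw [hG]
    have h1 : 0 ≤ 2 * Δ * Sk := by positivity
    have h2 : 0 ≤ k * G98 g k := by positivity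
    linarith
  have hG0 : 0 < G := by linarith
  have hGS : 2 * Δ * Sk ≤ G := by
    rw [hG]
    have h2 : 0 ≤ k * G98 g k := by positivity
    linarith
  have hGk : k * G98 g k ≤ G := by
    rw [hG]
    have h1 : 0 ≤ 2 * Δ * Sk := by positivity
    linarith
  have hgrad : ∀ l, l < J → w98 g l / 2 ^ l / G ≤ 1 / k := by
    intro l hl
    have hw := w98_pos hg l
    rw [div_div, div_le_div_iff₀ (by positivity) (by linarith), one_mul]
    rcases lt_or_ge l k with h | h
    · have h1 := w98_le_G98 hg h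
      have h2 : (1 : ℝ) ≤ 2 ^ l := one_le_pow₀ (by norm_num)
      calc w98 g l * k ≤ G98 g k * k := mul_le_mul_of_nonneg_right h1 (by linarith)
        _ ≤ G := by linarith
        _ = 1 * G := by ring
        _ ≤ 2 ^ l * G := mul_le_mul_of_nonneg_right h2 hG0.le
    · have h1 : w98 g l ≤ G := by
        rw [hG]
        exact w98_le_G98 hg hl
      have h2 : (k : ℝ) ≤ 2 ^ l := by
        have h3 : k < 2 ^ k := Nat.lt_two_pow_self
        have h4 : 2 ^ k ≤ 2 ^ l := Nat.pow_le_pow_right (by norm_num) h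
        have h5 : k ≤ 2 ^ l := by omega
        exact_mod_cast h5
      calc w98 g l * k ≤ G * 2 ^ l := mul_le_mul h1 h2 (by linarith) hG0.le
        _ = 2 ^ l * G := by ring
  obtain ⟨s, hs⟩ : ∃ s : ℝ, s = Sk * G := ⟨_, rfl⟩
  have hs0 : 0 < s := by rw [hs]; positivity
  obtain ⟨wJ, hwJ⟩ : ∃ wJ : ℝ, wJ = (w98 g (J - 1)) ^ 2 / 4 ^ (J - 1) := ⟨_, rfl⟩
  have hwJ0 : 0 < wJ := by
    rw [hwJ]
    have := w98_pos hg (J - 1)
    positivity
  refine ⟨2 ^ J, ⌈s / wJ⌉₊, ?_⟩
  intro V _ c S hsym hM hSne hΔ htube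
  obtain ⟨M⟩ := hM
  have htot := mu98_total hK M S J Δ g hg hΔ htube
  rw [← hG] at htot
  have hmag := hMAG M.N M.ctr M.rad (S.image M.root) (fun d => mu98 g c S J (M.own d)) A1 s M.rad_pos
    M.disj (fun d => mu98_nonneg _ _ _ _ _) hA11 hs0
  have hgood : ∀ w ∈ S, ¬ (∀ p : ℂ, s < ∑ d with (fd M.ctr M.rad (M.ctr (M.root w)) d ≤
      A1 * M.rad (M.root w) ∧ M.rad (M.root w) < A1 * fd M.ctr M.rad p d), mu98 g c S J (M.own d)) →
      Good (C5 * (Δ + 1) + C5 + 5) k ⌈s / wJ⌉₊ c w := by
    intro w hw hb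
    push Not at hb
    obtain ⟨p, hp⟩ := hb
    have hreg : ∀ d, M.InE k (M.root w) p d → (fd M.ctr M.rad (M.ctr (M.root w)) d ≤
      A1 * M.rad (M.root w) ∧ M.rad (M.root w) < A1 * fd M.ctr M.rad p d) := by
      intro d hd
      obtain ⟨W, hW⟩ := hd
      have := hW d W.end_mem_support
      rw [hA1]
      exact this
    obtain ⟨Uk, hU01, hUw, hUs, hUE, hUg⟩ := hEN V c M w p k (Δ + 1) hsym hk (by
      have : (0 : ℝ) ≤ Δ := Nat.cast_nonneg _
      linarith) (fun d _ => by
      have : (deg c (M.own d) : ℝ) ≤ Δ := by exact_mod_cast hΔ _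
      linarith)
    have hreach : ∀ v, Uk v ≠ 0 → ∃ n, NearSet c n S v := by
      intro v hv
      have := ine98_reach hsym hE hK M hw (hUs v hv)
      rwa [M.own_root] at this
    obtain ⟨ψ, hψ⟩ : ∃ ψ : V → ℝ, ψ = fun v => psi98 g J (ht98 c S v) := ⟨_, rfl⟩
    have hψ0 : ∀ v, 0 ≤ ψ v := fun v => by rw [hψ]; exact psi98_nonneg _ _ _
    have hψz : ∀ v, ψ v ≠ 0 → ht98 c S v + 1 < 2 ^ J := by
      intro v hv
      by_contra hcon
      push Not at hcon
      apply hv
      rw [hψ]
      exact psi98_zero hg (by rw [← hG]; exact hG0) hcon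
    have hψs : ∀ x y, (∃ n, NearSet c n S x) → ψ x ≠ 0 → c x y ≠ 0 →
        |ψ x - ψ y| ≤ 1 / k ∧ (ψ x - ψ y) ^ 2 ≤ mu98 g c S J x / G ^ 2 := by
      intro x y hx hx0 hxy
      obtain ⟨hy, h1⟩ := ht98_step hx hxy
      obtain ⟨-, h2⟩ := ht98_step hy (show c y x ≠ 0 by rw [hsym]; exact hxy)
      obtain ⟨l, hl, hl1, hl2⟩ := psi98_step hg J (by rw [← hG]; exact hG0) _ _ (hψz x hx0) h2 h1
      rw [← hG] at hl2
      have h3 := mu98_ge g c S J x hx l hl hl1
      have h4 : |ψ x - ψ y| ≤ w98 g l / 2 ^ l / G := by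
        rw [hψ]
        exact hl2
      refine ⟨h4.trans (hgrad l hl), ?_⟩
      rw [← sq_abs (ψ x - ψ y)]
      refine (pow_le_pow_left₀ (abs_nonneg _) h4 2).trans ?_
      rw [div_pow, div_pow]
      apply div_le_div_of_nonneg_right _ (by positivity)
      have h5 : ((2 : ℝ) ^ l) ^ 2 = 4 ^ l := by
        rw [← pow_mul, mul_comm, pow_mul]
        norm_num
      rw [h5]
      exact h3
    obtain ⟨U0, hU0⟩ : ∃ U0 : V → ℝ, U0 = fun v => min (Uk v) (ψ v) := ⟨_, rfl⟩
    have hU00 : ∀ v, 0 ≤ U0 v := fun v => by rw [hU0]; exact le_min (hU01 v).1 (hψ0 v)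
    have hU01' : ∀ v, U0 v ≤ 1 := fun v => by
      rw [hU0]
      exact (min_le_left _ _).trans (hU01 v).2
    have hU0ne : ∀ v, U0 v ≠ 0 → Uk v ≠ 0 ∧ ψ v ≠ 0 := by
      intro v hv
      constructor
      · intro h0
        apply hv
        rw [hU0]
        simp only [h0]
        exact min_eq_left (hψ0 v)
      · intro h0
        apply hv
        rw [hU0]
        simp only [h0]
        exact min_eq_right (hU01 v).1
    have htw : ht98 c S w = 0 := by
      have : NearSet c 0 S w := ⟨w, hw, rfl⟩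
      have := ht98_le this
      omega
    have hU0w : U0 w = 1 := by
      rw [hU0, hψ]
      simp only [hUw, htw, psi98_at_zero, min_self]
    obtain ⟨P, hP⟩ : ∃ P : V → Prop, P = fun v =>
      Relation.ReflTransGen (fun a b => c a b ≠ 0 ∧ U0 b ≠ 0) w v := ⟨_, rfl⟩
    have hPw : P w := by rw [hP]
    have hPne : ∀ v, P v → U0 v ≠ 0 := by
      intro v hv
      rw [hP] at hv
      rcases Relation.ReflTransGen.cases_tail hv with h | ⟨b, _, hb⟩
      · rw [h, hU0w]
        exact one_ne_zero
      · exact hb.2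
    have hPstep : ∀ x y, P x → c x y ≠ 0 → U0 y ≠ 0 → P y := by
      intro x y hx hxy hy
      rw [hP] at hx ⊢
      exact hx.tail ⟨hxy, hy⟩
    obtain ⟨U, hU⟩ : ∃ U : V → ℝ, U = fun v => if P v then U0 v else 0 := ⟨_, rfl⟩
    have hUP : ∀ v, P v → U v = U0 v := fun v hv => by rw [hU]; exact if_pos hv
    have hUN : ∀ v, ¬ P v → U v = 0 := fun v hv => by rw [hU]; exact if_neg hv
    -- the set of the support of U0
    have hQ : ∀ v, U0 v ≠ 0 → (fd M.ctr M.rad (M.ctr (M.root w)) (M.root v) ≤
      A1 * M.rad (M.root w) ∧ M.rad (M.root w) < A1 * fd M.ctr M.rad p (M.root v)) := by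
      intro v hv
      exact hreg _ (hUs v (hU0ne v hv).1)
    have hTcard : ((Finset.univ.filter (fun v => U0 v ≠ 0)).card : ℝ) ≤ s / wJ := by
      have h1 := mu98_sum M S J g (fun d => fd M.ctr M.rad (M.ctr (M.root w)) d ≤
        A1 * M.rad (M.root w) ∧ M.rad (M.root w) < A1 * fd M.ctr M.rad p d) s hp
          (Finset.univ.filter (fun v => U0 v ≠ 0)) (by
        intro v hv
        exact hQ v (Finset.mem_filter.1 hv).2)
      have h2 : ((Finset.univ.filter (fun v => U0 v ≠ 0)).card : ℝ) * wJ ≤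
          ∑ v ∈ Finset.univ.filter (fun v => U0 v ≠ 0), mu98 g c S J v := by
        rw [← nsmul_eq_mul, ← Finset.sum_const]
        apply Finset.sum_le_sum
        intro v hv
        have hv' := (Finset.mem_filter.1 hv).2
        rw [hwJ]
        apply mu98_ge g c S J v (hreach v (hU0ne v hv').1) (J - 1) (by omega)
        have h3 := hψz v (hU0ne v hv').2
        have h4 : J - 1 + 1 = J := by omega
        rw [h4]
        omega
      rw [le_div_iff₀ hwJ0]
      exact h2.trans h1
    refine ⟨U, ?_, ?_, ?_, ?_, ?_⟩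
    · intro v
      by_cases hv : P v
      · rw [hUP v hv]
        exact ⟨hU00 v, hU01' v⟩
      · rw [hUN v hv]
        exact ⟨le_refl _, zero_le_one⟩
    · rw [hUP w hPw, hU0w]
    · intro v hv
      have hv' : P v := by
        by_contra hcon
        exact hv (hUN v hcon)
      have h1 := near98_of_reach hsym (Finset.univ.filter (fun v => U0 v ≠ 0)) (w := w)
        (by simp [hU0w]) (v := v) (by
          rw [hP] at hv'
          refine Relation.ReflTransGen.mono ?_ _ _ hv'
          intro a b hab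
          exact ⟨hab.1, by simpa using hab.2⟩)
      refine near98_mono ?_ h1
      have h2 : ((Finset.univ.filter (fun v => U0 v ≠ 0)).card : ℝ) ≤ (⌈s / wJ⌉₊ : ℝ) :=
        hTcard.trans (Nat.le_ceil _)
      exact_mod_cast h2
    · -- energy
      have hE1 : Energy c Uk ≤ C5 * (Δ + 1) := by
        refine hUE.trans ?_
        exact div_le_self (by positivity) hk1
      have hpair : ∀ x y, (c x y : ℝ) * (U x - U y) ^ 2 ≤ (c x y : ℝ) * (Uk x - Uk y) ^ 2 +
          ((if P x then (c x y : ℝ) * (ψ x - ψ y) ^ 2 else 0) +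
            (if P y then (c y x : ℝ) * (ψ y - ψ x) ^ 2 else 0)) := by
        intro x y
        by_cases hxy : c x y = 0
        · have hyx : c y x = 0 := by rw [hsym]; exact hxy
          simp [hxy, hyx]
        have hcc : (c y x : ℝ) = c x y := by rw [hsym]
        have hc0 : (0 : ℝ) ≤ c x y := Nat.cast_nonneg _
        have hmin : (U0 x - U0 y) ^ 2 ≤ (Uk x - Uk y) ^ 2 + (ψ x - ψ y) ^ 2 := by
          rw [hU0]
          exact min98_sq _ _ _ _
        by_cases hx : P x
        · have h1 : U y = U0 y := by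
            by_cases hy : P y
            · exact hUP y hy
            · rw [hUN y hy]
              by_contra hcon
              exact hy (hPstep x y hx hxy (fun h0 => hcon h0.symm))
          rw [hUP x hx, h1, if_pos hx]
          have h2 : (0 : ℝ) ≤ if P y then (c y x : ℝ) * (ψ y - ψ x) ^ 2 else 0 := by
            split_ifs
            · positivity
            · exact le_refl _
          have h3 := mul_le_mul_of_nonneg_left hmin hc0
          rw [mul_add] at h3
          linarith
        · by_cases hy : P y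
          · have h1 : U x = U0 x := by
              rw [hUN x hx]
              by_contra hcon
              exact hx (hPstep y x hy (by rw [hsym]; exact hxy) (fun h0 => hcon h0.symm))
            rw [hUP y hy, h1, if_neg hx, if_pos hy, hcc]
            have h3 := mul_le_mul_of_nonneg_left hmin hc0
            rw [mul_add] at h3
            have h4 : (ψ y - ψ x) ^ 2 = (ψ x - ψ y) ^ 2 := by ring
            rw [h4]
            linarith
          · rw [hUN x hx, hUN y hy, if_neg hx, if_neg hy]
            have : 0 ≤ (c x y : ℝ) * (Uk x - Uk y) ^ 2 := by positivity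
            simp only [sub_self, add_zero]
            norm_num
            exact this
      have hψE : ∑ x, ∑ y, (if P x then (c x y : ℝ) * (ψ x - ψ y) ^ 2 else 0) ≤ 1 / 2 := by
        have h1 : ∀ x, ∑ y, (if P x then (c x y : ℝ) * (ψ x - ψ y) ^ 2 else 0) ≤
            if P x then (Δ / G ^ 2) * mu98 g c S J x else 0 := by
          intro x
          by_cases hx : P x
          · simp only [if_pos hx]
            have hx0 := hPne x hx
            have hxr := hreach x (hU0ne x hx0).1
            have h2 : ∀ y ∈ (Finset.univ : Finset V), (c x y : ℝ) * (ψ x - ψ y) ^ 2 ≤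
                (c x y : ℝ) * (mu98 g c S J x / G ^ 2) := by
              intro y _
              by_cases hxy : c x y = 0
              · simp [hxy]
              · apply mul_le_mul_of_nonneg_left _ (Nat.cast_nonneg _)
                exact (hψs x y hxr (hU0ne x hx0).2 hxy).2
            refine (Finset.sum_le_sum h2).trans ?_
            rw [← Finset.sum_mul]
            have h3 : ∑ y, (c x y : ℝ) ≤ Δ := by
              have h4 := hΔ x
              unfold deg at h4
              rw [finsum_eq_sum_of_fintype] at h4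
              exact_mod_cast h4
            have h5 := mu98_nonneg g c S J x
            calc (∑ y, (c x y : ℝ)) * (mu98 g c S J x / G ^ 2)
                ≤ Δ * (mu98 g c S J x / G ^ 2) := mul_le_mul_of_nonneg_right h3 (by positivity)
              _ = (Δ / G ^ 2) * mu98 g c S J x := by ring
          · simp only [if_neg hx, Finset.sum_const_zero]
            exact le_refl _
        refine (Finset.sum_le_sum (fun x _ => h1 x)).trans ?_
        rw [← Finset.sum_filter, ← Finset.mul_sum]
        have h2 := mu98_sum M S J g (fun d => fd M.ctr M.rad (M.ctr (M.root w)) d ≤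
          A1 * M.rad (M.root w) ∧ M.rad (M.root w) < A1 * fd M.ctr M.rad p d) s hp
            (Finset.univ.filter (fun v => P v)) (by
          intro v hv
          exact hQ v (hPne v (Finset.mem_filter.1 hv).2))
        calc Δ / G ^ 2 * ∑ v ∈ Finset.univ.filter (fun v => P v), mu98 g c S J v
            ≤ Δ / G ^ 2 * s := mul_le_mul_of_nonneg_left h2 (by positivity)
          _ = (2 * Δ * Sk) / (2 * G) := by
              rw [hs]
              field_simp
          _ ≤ G / (2 * G) := div_le_div_of_nonneg_right hGS (by positivity)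
          _ = 1 / 2 := by
              field_simp
      have hsumE : Energy c U ≤ Energy c Uk +
          (∑ x, ∑ y, (if P x then (c x y : ℝ) * (ψ x - ψ y) ^ 2 else 0) +
            ∑ x, ∑ y, (if P y then (c y x : ℝ) * (ψ y - ψ x) ^ 2 else 0)) := by
        unfold Energy
        simp only [finsum_eq_sum_of_fintype]
        rw [← Finset.sum_add_distrib, ← Finset.sum_add_distrib]
        apply Finset.sum_le_sum
        intro x _
        rw [← Finset.sum_add_distrib, ← Finset.sum_add_distrib]
        apply Finset.sum_le_sum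
        intro y _
        exact hpair x y
      have hsw : ∑ x, ∑ y, (if P y then (c y x : ℝ) * (ψ y - ψ x) ^ 2 else 0) =
          ∑ x, ∑ y, (if P x then (c x y : ℝ) * (ψ x - ψ y) ^ 2 else 0) := Finset.sum_comm
      rw [hsw] at hsumE
      have : (0 : ℝ) ≤ Δ := Nat.cast_nonneg _
      nlinarith
    · -- gradient
      intro x y hxy
      have hyx : c y x ≠ 0 := by rw [hsym]; exact hxy
      have hdx : (0 : ℝ) ≤ deg c x := Nat.cast_nonneg _
      have hdy : (0 : ℝ) ≤ deg c y := Nat.cast_nonneg _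
      have hstep : ∀ a b, (∃ n, NearSet c n S a) → ψ a ≠ 0 → c a b ≠ 0 → |ψ a - ψ b| ≤ 1 / k := by
        intro a b ha ha0 hab
        exact (hψs a b ha ha0 hab).1
      have hbnd : |ψ x - ψ y| ≤ 1 / k → |U0 x - U0 y| ≤
          (C5 * (Δ + 1) + C5 + 5) * (1 + deg c x + deg c y) / k := by
        intro h1
        have h2 : |U0 x - U0 y| ≤ max |Uk x - Uk y| |ψ x - ψ y| := by
          rw [hU0]
          exact abs_min_sub_min_le_max _ _ _ _
        refine h2.trans (max_le ?_ ?_)
        · refine (hUg x y hxy).trans ?_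
          apply div_le_div_of_nonneg_right _ (by linarith)
          apply mul_le_mul_of_nonneg_right _ (by positivity)
          have : 0 ≤ C5 * ((Δ : ℝ) + 1) := by positivity
          linarith
        · refine h1.trans ?_
          apply div_le_div_of_nonneg_right _ (by linarith)
          have : 0 ≤ C5 * ((Δ : ℝ) + 1) := by positivity
          nlinarith
      have hrhs : 0 ≤ (C5 * (Δ + 1) + C5 + 5) * (1 + deg c x + deg c y) / k := by positivity
      by_cases hx : P x
      · have h1 : U y = U0 y := by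
          by_cases hy : P y
          · exact hUP y hy
          · rw [hUN y hy]
            by_contra hcon
            exact hy (hPstep x y hx hxy (fun h0 => hcon h0.symm))
        rw [hUP x hx, h1]
        exact hbnd (hstep x y (hreach x (hU0ne x (hPne x hx)).1) (hU0ne x (hPne x hx)).2 hxy)
      · by_cases hy : P y
        · have h1 : U x = U0 x := by
            rw [hUN x hx]
            by_contra hcon
            exact hx (hPstep y x hy hyx (fun h0 => hcon h0.symm))
          rw [hUP y hy, h1]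
          apply hbnd
          rw [abs_sub_comm]
          exact hstep y x (hreach y (hU0ne y (hPne y hy)).1) (hU0ne y (hPne y hy)).2 hyx
        · rw [hUN x hx, hUN y hy, sub_self, abs_zero]
          exact hrhs
  -- conclusion
  have hcard : ((S.filter (fun w => ¬ Good (C5 * (Δ + 1) + C5 + 5) k ⌈s / wJ⌉₊ c w)).card :
      ℝ) ≤ (((S.image M.root).filter (fun w => ∀ p : ℂ,
      s < ∑ d with (fd M.ctr M.rad (M.ctr w) d ≤ A1 * M.rad w ∧
        M.rad w < A1 * fd M.ctr M.rad p d), mu98 g c S J (M.own d))).card : ℝ) := by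
    have h1 : (S.filter (fun w => ¬ Good (C5 * (Δ + 1) + C5 + 5) k ⌈s / wJ⌉₊ c w)).image
        M.root ⊆ (S.image M.root).filter (fun w => ∀ p : ℂ,
        s < ∑ d with (fd M.ctr M.rad (M.ctr w) d ≤ A1 * M.rad w ∧
        M.rad w < A1 * fd M.ctr M.rad p d), mu98 g c S J (M.own d)) := by
      intro d hd
      obtain ⟨w, hw, rfl⟩ := Finset.mem_image.mp hd
      obtain ⟨hwS, hwG⟩ := Finset.mem_filter.mp hw
      refine Finset.mem_filter.mpr ⟨Finset.mem_image_of_mem _ hwS, ?_⟩
      by_contra hb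
      exact hwG (hgood w hwS hb)
    have h2 := Finset.card_le_card h1
    rw [Finset.card_image_of_injective _ (fun u v huv => by
      have := congrArg M.own huv
      rwa [M.own_root, M.own_root] at this)] at h2
    exact_mod_cast h2
  refine hcard.trans ?_
  have h3 : C0 * A1 ^ 4 * (K * (1 + Δ)) ≤ ε * Sk := by
    have h4 : C0 * A1 ^ 4 * (K * (1 + Δ)) / ε ≤ Sk := by rw [hSk]; linarith
    rw [div_le_iff₀ hε] at h4
    linarith
  have h5 : s * (((S.image M.root).filter (fun w => ∀ p : ℂ,
      s < ∑ d with (fd M.ctr M.rad (M.ctr w) d ≤ A1 * M.rad w ∧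
        M.rad w < A1 * fd M.ctr M.rad p d), mu98 g c S J (M.own d))).card : ℝ) ≤ s * (ε * S.card) := by
    calc _ ≤ C0 * A1 ^ 4 * ∑ d, mu98 g c S J (M.own d) := hmag
      _ ≤ C0 * A1 ^ 4 * (G * (K * (1 + Δ)) * S.card) :=
          mul_le_mul_of_nonneg_left htot (by positivity)
      _ = (C0 * A1 ^ 4 * (K * (1 + Δ))) * (G * S.card) := by ring
      _ ≤ (ε * Sk) * (G * S.card) := mul_le_mul_of_nonneg_right h3 (by positivity)
      _ = s * (ε * S.card) := by rw [hs]; ring
  exact le_of_mul_le_mul_left h5 hs0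

end main98

end

end SPR
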