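import Pool.Agent.Helper78.SPR.MAIN
import Pool.Agent.Helper98.SPR.FINB

/-!
# Bounded degrees: passage to the limit (copy of row MAIN by helper78)
-/

namespace SPR

open Filter Topology MeasureTheory

open Classical in
theorem st_MAINB : ST_FINB → ST_LIM → ST_REC2 → ST_MAINB := by
  intro hF hL hR K Δ g hK hg hgs V _ c S hsym hM hne hiso hΔ htube Ω _ P _ G hGs hGf hloc
  obtain ⟨A, hA, hFA⟩ := hF K Δ g hK hg hgs
  have hnice : ∀ n, Nice (c n) := fun n => ⟨hsym n, fun x => Set.toFinite _⟩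
  have hniceG : ∀ ω, Nice (G ω) := fun ω => ⟨hGs ω, hGf ω⟩
  have key : ∀ i : ℕ, ∃ k ≥ i, ∃ R,
      (P {ω | ¬ Good A k R (G ω) 0}).toReal ≤ ((1 : ℝ) / 2) ^ i := by
    intro i
    obtain ⟨k0, hk0⟩ := hFA (((1 : ℝ) / 2) ^ i) (by positivity)
    obtain ⟨J, R, hall⟩ := hk0 (max k0 i) (le_max_left _ _)
    refine ⟨max k0 i, le_max_right _ _, R, ?_⟩
    refine hL A (((1 : ℝ) / 2) ^ i) (max k0 i) R V c S Ω P G (by positivity) hnice hniceG hne
      hloc ?_
    have hev : ∀ᶠ n in atTop, ∀ h ∈ Finset.Icc 1 J,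
        ((Finset.univ.filter (fun v => NearSet (c n) h (S n) v)).card : ℝ) ≤
          g h * (S n).card := by
      rw [Filter.eventually_all_finset]
      intro h hh
      exact htube h (Finset.mem_Icc.1 hh).1
    filter_upwards [hev] with n e1
    exact hall (V n) (c n) (S n) (hsym n) (hM n) (hne n) (hΔ n)
      (fun h h1 h2 => e1 h (Finset.mem_Icc.2 ⟨h1, h2⟩))
  choose k hk R hkR using key
  have hBC : ∑' i, P {ω | ¬ Good A (k i) (R i) (G ω) 0} ≠ ⊤ := by
    have hb : ∀ i, P {ω | ¬ Good A (k i) (R i) (G ω) 0} ≤ ENNReal.ofReal (((1 : ℝ) / 2) ^ i) := by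
      intro i
      rw [← ENNReal.ofReal_toReal (measure_ne_top P {ω | ¬ Good A (k i) (R i) (G ω) 0})]
      exact ENNReal.ofReal_le_ofReal (hkR i)
    refine ne_top_of_le_ne_top ?_ (ENNReal.tsum_le_tsum hb)
    rw [← ENNReal.ofReal_tsum_of_nonneg (fun i => by positivity)
      (summable_geometric_of_lt_one (by norm_num) (by norm_num))]
    exact ENNReal.ofReal_ne_top
  have hae := ae_eventually_notMem hBC
  have hdeg : ∀ᵐ ω ∂P, ∃ y, G ω 0 y ≠ 0 := by
    classical
    have hlim := hloc 1 1 (fun _ _ => 0) 0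
    have hz : ∀ n, ((S n).filter (fun w => BallIso 1 (c n) w (fun _ _ : Fin 1 => 0) 0)).card = 0 := by
      intro n
      rw [Finset.card_eq_zero, Finset.filter_eq_empty_iff]
      intro w hw
      obtain ⟨y, hy⟩ := hiso n w hw
      exact not_ballIso_of_adj (c n) w hy
    have hconst : Tendsto (fun _ : ℕ => (0 : ℝ)) atTop
        (𝓝 (P {ω | BallIso 1 (G ω) 0 (fun _ _ : Fin 1 => 0) 0}).toReal) := by
      refine hlim.congr (fun n => ?_)
      rw [hz n]
      simp
    have h0 : (P {ω | BallIso 1 (G ω) 0 (fun _ _ : Fin 1 => 0) 0}).toReal = 0 :=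
      (tendsto_nhds_unique hconst tendsto_const_nhds)
    have h00 : P {ω | BallIso 1 (G ω) 0 (fun _ _ : Fin 1 => 0) 0} = 0 := by
      rcases (ENNReal.toReal_eq_zero_iff _).1 h0 with h | h
      · exact h
      · exact absurd h (measure_ne_top P _)
    have hn : ∀ᵐ ω ∂P, ¬ BallIso 1 (G ω) 0 (fun _ _ : Fin 1 => 0) 0 := by
      rw [ae_iff]
      simpa using h00
    filter_upwards [hn] with ω hω
    by_contra hcon
    push Not at hcon
    exact hω (ballIso_of_isolated (G ω) 0 hcon)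
  filter_upwards [hae, hdeg] with ω h3 h4
  obtain ⟨y, hy⟩ := h4
  refine hR A ℕ (G ω) 0 (hniceG ω) (deg_ne_zero (hGf ω 0) hy) ?_
  intro k0
  obtain ⟨n0, hn0⟩ := eventually_atTop.1 h3
  refine ⟨k (max n0 k0), le_trans (le_max_right _ _) (hk _), R (max n0 k0), ?_⟩
  have := hn0 (max n0 k0) (le_max_left _ _)
  by_contra hg
  exact this hg

end SPR
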