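import Pool.Agent.Helper98.SPR.Stmts

/-!
# Row statements for the bounded degree theorem (sharp growth condition)
-/

namespace SPR

noncomputable section

open Filter Topology MeasureTheory

open Classical in
/-- finite theorem, bounded degree -/
def ST_FINB : Prop :=
  ∀ (K : ℝ) (Δ : ℕ) (g : ℕ → ℝ), 1 ≤ K → (∀ h, 0 < g h) →
    ¬ Summable (fun i : ℕ => (4 : ℝ) ^ i / g (2 ^ i)) →
    ∃ A : ℝ, 0 < A ∧ ∀ ε : ℝ, 0 < ε → ∃ k0 : ℕ, ∀ k ≥ k0, ∃ J R : ℕ,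
      ∀ (V : Type) [Fintype V] (c : V → V → ℕ) (S : Finset V),
        (∀ x y, c x y = c y x) → Nonempty (DiscModel K c) → S.Nonempty → (∀ v, deg c v ≤ Δ) →
        (∀ h : ℕ, 1 ≤ h → h ≤ J →
          ((Finset.univ.filter (fun v => NearSet c h S v)).card : ℝ) ≤ g h * S.card) →
        ((S.filter (fun w => ¬ Good A k R c w)).card : ℝ) ≤ ε * S.card

open Classical in
/-- main theorem, bounded degree -/
def ST_MAINB : Prop :=
  ∀ (K : ℝ) (Δ : ℕ) (g : ℕ → ℝ), 1 ≤ K → (∀ h, 0 < g h) →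
    ¬ Summable (fun i : ℕ => (4 : ℝ) ^ i / g (2 ^ i)) →
    ∀ (V : ℕ → Type) [∀ n, Fintype (V n)] (c : ∀ n, V n → V n → ℕ) (S : ∀ n, Finset (V n)),
      (∀ n x y, c n x y = c n y x) → (∀ n, Nonempty (DiscModel K (c n))) → (∀ n, (S n).Nonempty) →
      (∀ n, ∀ w ∈ S n, ∃ y, c n w y ≠ 0) → (∀ n v, deg (c n) v ≤ Δ) →
      (∀ h : ℕ, 1 ≤ h → ∀ᶠ n in atTop,
        ((Finset.univ.filter (fun v => NearSet (c n) h (S n) v)).card : ℝ) ≤ g h * (S n).card) →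
      ∀ (Ω : Type) [MeasurableSpace Ω] (P : Measure Ω) [IsProbabilityMeasure P]
        (G : Ω → ℕ → ℕ → ℕ), (∀ ω x y, G ω x y = G ω y x) →
        (∀ ω x, (Function.support (G ω x)).Finite) → LocalLimit c S P G →
        ∀ᵐ ω ∂P, Recurrent (G ω) 0

end

end SPR
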